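import Pool.Agent.EGF.StmtsV

/-!
# Row MX2 of the squad EGF: families of probability vectors with bounded sums
-/

set_option autoImplicit false

open Finset

namespace Pool.Agent.EGF.H24

/-- one family: the average is a bounded probability vector -/
theorem avg2 {X : Type} (A : Finset X) (K : ℝ) (m : ℕ) (u : ℕ → X → ℝ) (hm : (0 : ℝ) < m)
    (hu : ∀ i < m, (∀ a ∈ A, 0 ≤ u i a) ∧ ∑ a ∈ A, u i a = 1)
    (hs : ∀ a ∈ A, (∑ i ∈ range m, u i a) * A.card ≤ K * m) :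
    (∀ a ∈ A, 0 ≤ (∑ i ∈ range m, u i a) / m ∧
      (∑ i ∈ range m, u i a) / m * A.card ≤ K) ∧
    ∑ a ∈ A, (∑ i ∈ range m, u i a) / m = 1 := by
  refine ⟨fun a ha => ⟨?_, ?_⟩, ?_⟩
  · exact div_nonneg (Finset.sum_nonneg fun i hi => (hu i (mem_range.1 hi)).1 a ha) hm.le
  · rw [div_mul_eq_mul_div, div_le_iff₀ hm]
    exact hs a ha
  · rw [← Finset.sum_div, Finset.sum_comm]
    rw [Finset.sum_congr rfl (fun i hi => (hu i (mem_range.1 hi)).2)]
    simp only [Finset.sum_const, card_range, nsmul_eq_mul, mul_one]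
    exact div_self hm.ne'

/-- row MX2 -/
theorem mx2 (hB : BmdStmt) : Mx2Stmt := by
  intro X Y _ _ A B F M ι ρ K m n u v hA hBn hι h2 hM hρ hK h4 hL hm1 hn1 hu hv hus hvs
  have hm : (0 : ℝ) < m := by exact_mod_cast hm1
  have hn : (0 : ℝ) < n := by exact_mod_cast hn1
  obtain ⟨a1, a2⟩ := avg2 A K m u hm hu hus
  obtain ⟨b1, b2⟩ := avg2 B K n v hn hv hvs
  have key := hB X Y A B F M ι ρ K (fun a => (∑ i ∈ range m, u i a) / m)
    (fun b => (∑ j ∈ range n, v j b) / n) hA hBn hι h2 hM hρ hK h4 hL a1 b1 a2 b2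
  have h5 : ∑ p ∈ (A ×ˢ B) ∩ F, (∑ i ∈ range m, u i p.1) / m * ((∑ j ∈ range n, v j p.2) / n) =
      (∑ i ∈ range m, ∑ j ∈ range n, ∑ p ∈ (A ×ˢ B) ∩ F, u i p.1 * v j p.2) / (m * n) := by
    have h6 : ∀ p ∈ (A ×ˢ B) ∩ F, (∑ i ∈ range m, u i p.1) / m * ((∑ j ∈ range n, v j p.2) / n) =
        (∑ i ∈ range m, ∑ j ∈ range n, u i p.1 * v j p.2) / (m * n) := by
      intro p _
      rw [div_mul_div_comm, Finset.sum_mul_sum]
    rw [Finset.sum_congr rfl h6, ← Finset.sum_div, Finset.sum_comm]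
    congr 1
    refine Finset.sum_congr rfl fun i _ => ?_
    rw [Finset.sum_comm]
  rw [h5, le_div_iff₀ (by positivity)] at key
  exact key

end Pool.Agent.EGF.H24
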