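import Pool.Agent.EGF.Stmts

/-!
# Squad EGF, row PAR: the parameters
-/

set_option autoImplicit false

open Real

namespace Pool.Agent.EGF.H24

/-- `q ^ 12873 ≤ exp (q ^ 2)` -/
theorem a1 (q : ℝ) (hq : 1024 ≤ q) : q ^ 12873 ≤ exp (q ^ 2) := by
  have hq0 : 0 ≤ q := by linarith
  have h1 : q ≤ exp (q ^ 2 / 12873) := by
    have h2 := Real.quadratic_le_exp_of_nonneg (x := q ^ 2 / 12873) (by positivity)
    have h3 : q ≤ (q ^ 2 / 12873) ^ 2 / 2 := by
      have h4 : (331428258 : ℝ) ≤ q ^ 3 := by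
        calc (331428258 : ℝ) ≤ 1024 ^ 3 := by norm_num
          _ ≤ q ^ 3 := pow_le_pow_left₀ (by norm_num) hq 3
      have h5 : q * 331428258 ≤ q * q ^ 3 := mul_le_mul_of_nonneg_left h4 hq0
      have h6 : (q ^ 2 / 12873) ^ 2 / 2 = q * q ^ 3 / 331428258 := by ring
      rw [h6, le_div_iff₀ (by norm_num)]
      exact h5
    have h7 : 0 ≤ q ^ 2 / 12873 := by positivity
    linarith
  calc q ^ 12873 ≤ (exp (q ^ 2 / 12873)) ^ 12873 := pow_le_pow_left₀ hq0 h1 _
    _ = exp (q ^ 2) := by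
      rw [← Real.exp_nat_mul]
      congr 1
      push_cast
      ring

theorem a2 (l : ℝ) (h : 1048576 ≤ l) :
    128 * (3 * l ^ 2 + 2 * exp (l / 16)) ≤ exp (l / 2) := by
  have h1 : l ^ 2 ≤ 512 * exp (l / 16) := by
    have h2 := Real.quadratic_le_exp_of_nonneg (x := l / 16) (by positivity)
    have h3 : 0 ≤ l / 16 := by positivity
    have h4 : (l / 16) ^ 2 / 2 = l ^ 2 / 512 := by ring
    rw [h4] at h2
    have h5 : l ^ 2 / 512 ≤ exp (l / 16) := by linarith
    rw [div_le_iff₀ (by norm_num)] at h5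
    linarith
  have h6 : (196864 : ℝ) ≤ exp (7 * l / 16) := by
    have := Real.add_one_le_exp (7 * l / 16)
    linarith
  have h7 : exp (l / 2) = exp (7 * l / 16) * exp (l / 16) := by
    rw [← Real.exp_add]
    congr 1
    ring
  have h8 : 0 < exp (l / 16) := exp_pos _
  have h9 : 196864 * exp (l / 16) ≤ exp (7 * l / 16) * exp (l / 16) :=
    mul_le_mul_of_nonneg_right h6 h8.le
  rw [h7]
  linarith

/-- the last clause, with abstract powers -/
theorem a3 (q l A B C K Jr : ℝ) (hK : 1 ≤ K) (hl : l = log K) (hq : 1024 ≤ q)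
    (hlq : q ^ 2 ≤ l) (hA : A ≤ l) (hA0 : 0 ≤ A) (hB : B ≤ l) (hC0 : 0 ≤ C) (hC : 48 * C ≤ l)
    (hJ : Jr ≤ exp (2 * C) + 1) (S : ℝ) (hS1 : 1 ≤ S) (hS : S ≤ q ^ 5) :
    128 * ((3 + A * log (K + 1) + Jr * C) + B + log K + 2 * log S + 8) ≤ √K := by
  have hK0 : 0 < K := by linarith
  have h0 : (1048576 : ℝ) ≤ l := by
    calc (1048576 : ℝ) = 1024 ^ 2 := by norm_num
      _ ≤ q ^ 2 := pow_le_pow_left₀ (by norm_num) hq 2
      _ ≤ l := hlq
  have hl0 : 0 ≤ l := by linarith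
  have h1 : log (K + 1) ≤ 2 * l := by
    have h2 : log (K + 1) ≤ log (2 * K) := log_le_log (by linarith) (by linarith)
    rw [log_mul (by norm_num) hK0.ne'] at h2
    have h3 : log 2 ≤ 1 := by
      have := Real.log_two_lt_d9
      linarith
    linarith
  have h1' : 0 ≤ log (K + 1) := log_nonneg (by linarith)
  have h2 : A * log (K + 1) ≤ 2 * l ^ 2 := by
    calc A * log (K + 1) ≤ l * (2 * l) := mul_le_mul hA h1 h1' hl0
      _ = 2 * l ^ 2 := by ring
  have h3 : Jr * C ≤ 2 * exp (l / 16) := by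
    have h4 : 1 ≤ exp (2 * C) := Real.one_le_exp (by positivity)
    have h5 : C ≤ exp C := by
      have := Real.add_one_le_exp C
      linarith
    calc Jr * C ≤ (2 * exp (2 * C)) * C := mul_le_mul_of_nonneg_right (by linarith) hC0
      _ ≤ (2 * exp (2 * C)) * exp C := mul_le_mul_of_nonneg_left h5 (by positivity)
      _ = 2 * exp (3 * C) := by
        have h6 : exp (3 * C) = exp (2 * C) * exp C := by
          rw [← Real.exp_add]
          congr 1
          ring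
        rw [h6]
        ring
      _ ≤ 2 * exp (l / 16) := by
        have : exp (3 * C) ≤ exp (l / 16) := exp_le_exp.mpr (by linarith)
        linarith
  have h4 : log S ≤ 5 * q := by
    have h5 : log S ≤ log (q ^ 5) := log_le_log (by linarith) hS
    rw [log_pow] at h5
    have h6 : log q ≤ q := by
      have := Real.log_le_sub_one_of_pos (show 0 < q by linarith)
      linarith
    have h7 : ((5 : ℕ) : ℝ) = 5 := by norm_num
    rw [h7] at h5
    linarith
  have h5 : 10 * q ≤ l / 64 := by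
    have h6 : 1024 * q ≤ q ^ 2 := by
      rw [pow_two]
      exact mul_le_mul_of_nonneg_right hq (by linarith)
    linarith
  have h6 : 4 * l ≤ l ^ 2 := by
    rw [pow_two]
    exact mul_le_mul_of_nonneg_right (by linarith) hl0
  have h7 : √K = exp (l / 2) := by
    rw [hl, Real.sqrt_eq_rpow, Real.rpow_def_of_pos hK0]
    congr 1
    ring
  rw [h7, ← hl]
  refine le_trans ?_ (a2 l h0)
  linarith

theorem par : ParStmt := by
  intro Q s s1 hQ hs hs1
  obtain ⟨q, hq⟩ : ∃ q : ℝ, q = (Q : ℝ) := ⟨_, rfl⟩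
  have hq1 : (1024 : ℝ) ≤ q := by rw [hq]; exact_mod_cast hQ
  have hq0 : 0 < q := by linarith
  have hqo : 1 ≤ q := by linarith
  have hmono : ∀ a b : ℕ, a ≤ b → q ^ a ≤ q ^ b := fun a b h => pow_le_pow_right₀ hqo h
  have hqq : ∀ a : ℕ, q ^ a * 1024 ≤ q ^ (a + 1) := fun a => by
    rw [pow_succ]
    exact mul_le_mul_of_nonneg_left hq1 (pow_nonneg hq0.le _)
  have hS : (s : ℝ) ≤ q ^ 5 := by
    have h1 : (s : ℝ) = 32 * q ^ 4 + 1 := by rw [hs, hq]; push_cast; ring
    have h2 := hqq 4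
    have h3 : 1 ≤ q ^ 4 := one_le_pow₀ hqo
    have h4 : q ^ (4 + 1) = q ^ 5 := by norm_num
    rw [h4] at h2
    rw [h1]
    linarith
  have hS1 : (1 : ℝ) ≤ s := by
    have h1 : (s : ℝ) = 32 * q ^ 4 + 1 := by rw [hs, hq]; push_cast; ring
    have h3 : 1 ≤ q ^ 4 := one_le_pow₀ hqo
    rw [h1]
    linarith
  have hS0 : (0 : ℝ) < s := by linarith
  have hs1' : (s1 : ℝ) = q ^ 2575 := by rw [hs1, hq]; exact Nat.cast_pow Q 2575
  have hpow : ∀ n : ℕ, 0 < q ^ n := fun n => pow_pos hq0 n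
  -- the lower bound of `(1 / s ^ 2) ^ 257`
  have hlow : 1 / q ^ 2570 ≤ (1 / (s : ℝ) ^ 2) ^ 257 := by
    have h1 : 1 / (q ^ 5) ^ 2 ≤ 1 / (s : ℝ) ^ 2 :=
      one_div_le_one_div_of_le (by positivity) (pow_le_pow_left₀ hS0.le hS 2)
    have h2 : (1 / (q ^ 5) ^ 2) ^ 257 ≤ (1 / (s : ℝ) ^ 2) ^ 257 :=
      pow_le_pow_left₀ (by positivity) h1 257
    have h3 : (1 / (q ^ 5) ^ 2) ^ 257 = 1 / q ^ 2570 := by
      rw [← pow_mul, one_div_pow, ← pow_mul]
    rw [h3] at h2
    exact h2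
  have hj8 : (((Q ^ 5151 : ℕ) : ℝ)) = q ^ 5151 := by rw [hq]; exact Nat.cast_pow Q 5151
  refine ⟨Q ^ 5151, ⌈exp (2 * q ^ 41213)⌉₊, 1 / q ^ 2572, exp (-(q ^ 41213)), exp (-(q ^ 41212)),
    ?_, ?_, ?_, ?_, ?_, ?_, ?_, ?_, ?_, ?_, ?_, ?_, ?_⟩
  · -- 1
    rw [hs1', ← hq]
    have h1 : 1 / q ^ 2572 * q ^ 2575 = q ^ 3 := by
      have h2 : q ^ 2575 = q ^ 2572 * q ^ 3 := by rw [← pow_add]
      rw [h2, one_div, inv_mul_cancel_left₀ (hpow 2572).ne']
    rw [h1]
    have h3 := hqq 2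
    have h4 : q ^ (2 + 1) = q ^ 3 := by norm_num
    rw [h4] at h3
    have h5 := hpow 2
    linarith
  · exact one_div_pos.mpr (hpow _)
  · -- 3
    have h1 : (100 : ℝ) ≤ q ^ 2572 := by
      calc (100 : ℝ) ≤ q ^ 1 := by rw [pow_one]; linarith
        _ ≤ q ^ 2572 := hmono _ _ (by norm_num)
    exact one_div_le_one_div_of_le (by norm_num) h1
  · -- 4
    have h1 : 1 / q ^ 2572 ≤ 1 / q ^ 2570 / 4 := by
      rw [div_div]
      apply one_div_le_one_div_of_le
      · have := hpow 2570; linarith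
      · have h2 := hqq 2570
        have h3 : q ^ (2570 + 1) ≤ q ^ 2572 := hmono _ _ (by norm_num)
        have h4 := hpow 2570
        linarith
    have h5 : 1 / q ^ 2570 / 4 ≤ (1 / (s : ℝ) ^ 2) ^ 257 / 4 :=
      div_le_div_of_nonneg_right hlow (by norm_num)
    exact h1.trans h5
  · -- 5
    have h1 : √(1 / q ^ 2572) = 1 / q ^ 1286 := by
      have h2 : (1 : ℝ) / q ^ 2572 = (1 / q ^ 1286) ^ 2 := by
        rw [one_div_pow, ← pow_mul]
      rw [h2]
      exact Real.sqrt_sq (one_div_nonneg.mpr (hpow _).le)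
    rw [h1, ← hq]
    have h3 : 1 / q ^ 1286 ≤ 1 / q := by
      apply one_div_le_one_div_of_le hq0
      calc q = q ^ 1 := (pow_one q).symm
        _ ≤ q ^ 1286 := hmono _ _ (by norm_num)
    have h4 : 0 < 1 / q := one_div_pos.mpr hq0
    have h5 : 64 / q = 64 * (1 / q) := by rw [mul_one_div]
    rw [h5]
    linarith
  · -- 6
    have h1 : s1 ^ 2 = Q ^ 5150 := by rw [hs1, ← pow_mul]
    rw [h1]
    have h2 : Q ^ 5151 = Q ^ 5150 * Q := pow_succ Q 5150
    rw [h2, mul_comm]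
    exact Nat.mul_le_mul_left _ (by omega)
  · exact exp_pos _
  · exact Real.exp_le_one_iff.mpr (by have := hpow 41212; linarith)
  · -- 9
    have h1 : exp (-(q ^ 2)) ≤ (1 / (s : ℝ) ^ 2) ^ 257 / (2 * (((Q ^ 5151 : ℕ) : ℝ)) ^ 2) := by
      rw [hj8]
      have h2 : exp (-(q ^ 2)) ≤ 1 / q ^ 12873 := by
        rw [Real.exp_neg, ← one_div]
        exact one_div_le_one_div_of_le (hpow _) (a1 q hq1)
      have h3 : 1 / q ^ 12873 ≤ 1 / q ^ 2570 / (2 * (q ^ 5151) ^ 2) := by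
        rw [div_div]
        have h4 : (q ^ 5151) ^ 2 = q ^ 10302 := by rw [← pow_mul]
        rw [h4]
        have h5 : q ^ 2570 * (2 * q ^ 10302) = 2 * q ^ 12872 := by
          have h6 : q ^ 12872 = q ^ 2570 * q ^ 10302 := by rw [← pow_add]
          rw [h6, mul_left_comm]
        rw [h5]
        apply one_div_le_one_div_of_le
        · have := hpow 12872; linarith
        · have h7 := hqq 12872
          have h8 := hpow 12872
          have h9 : q ^ (12872 + 1) = q ^ 12873 := by norm_num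
          rw [h9] at h7
          linarith
      have h10 : 1 / q ^ 2570 / (2 * (q ^ 5151) ^ 2) ≤
          (1 / (s : ℝ) ^ 2) ^ 257 / (2 * (q ^ 5151) ^ 2) := by
        apply div_le_div_of_nonneg_right hlow
        exact mul_nonneg (by norm_num) (pow_nonneg (hpow _).le _)
      exact h2.trans (h3.trans h10)
    have h11 : exp (-(q ^ 2)) ^ (7 * (Q ^ 5151) ^ 8 + 1) ≤
        ((1 / (s : ℝ) ^ 2) ^ 257 / (2 * (((Q ^ 5151 : ℕ) : ℝ)) ^ 2)) ^
          (7 * (Q ^ 5151) ^ 8 + 1) :=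
      pow_le_pow_left₀ (exp_pos _).le h1 _
    refine le_trans ?_ h11
    rw [← Real.exp_nat_mul]
    apply exp_le_exp.mpr
    have h12 : (((7 * (Q ^ 5151) ^ 8 + 1 : ℕ)) : ℝ) = 7 * q ^ 41208 + 1 := by
      rw [Nat.cast_add, Nat.cast_mul, Nat.cast_pow, hj8, ← pow_mul, Nat.cast_one]
      norm_num
    rw [h12]
    have h13 : 7 * q ^ 41208 + 1 ≤ q ^ 41209 := by
      have h14 := hqq 41208
      have h15 : 1 ≤ q ^ 41208 := one_le_pow₀ hqo
      have h16 : q ^ (41208 + 1) = q ^ 41209 := by norm_num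
      rw [h16] at h14
      linarith
    have h17 : (7 * q ^ 41208 + 1) * q ^ 2 ≤ q ^ 41209 * q ^ 2 :=
      mul_le_mul_of_nonneg_right h13 (hpow 2).le
    have h18 : q ^ 41209 * q ^ 2 = q ^ 41211 := by rw [← pow_add]
    have h19 : q ^ 41211 ≤ q ^ 41212 := hmono _ _ (by norm_num)
    rw [h18] at h17
    have h20 : (7 * q ^ 41208 + 1) * -(q ^ 2) = -((7 * q ^ 41208 + 1) * q ^ 2) := mul_neg _ _
    rw [h20]
    linarith
  · exact exp_pos _
  · -- 11
    have h1 : exp (-(q ^ 41213)) * exp (q ^ 2) ≤ exp (-(q ^ 41212)) := by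
      rw [← Real.exp_add]
      apply exp_le_exp.mpr
      have h2 := hqq 41212
      have h3 : q ^ 2 ≤ q ^ 41212 := hmono _ _ (by norm_num)
      have h4 : q ^ (41212 + 1) = q ^ 41213 := by norm_num
      rw [h4] at h2
      have h5 := hpow 41212
      linarith
    have h2 : 16 * q ^ 2572 ≤ exp (q ^ 2) := by
      refine le_trans ?_ (a1 q hq1)
      have h3 := hqq 2572
      have h4 : q ^ (2572 + 1) ≤ q ^ 12873 := hmono _ _ (by norm_num)
      have h5 := hpow 2572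
      linarith
    have h3 : exp (-(q ^ 41213)) * (16 * q ^ 2572) ≤ exp (-(q ^ 41212)) :=
      (mul_le_mul_of_nonneg_left h2 (exp_pos _).le).trans h1
    rw [one_div, ← div_eq_inv_mul, le_div_iff₀ (hpow 2572)]
    have h4 : 16 * exp (-(q ^ 41213)) * q ^ 2572 = exp (-(q ^ 41213)) * (16 * q ^ 2572) := by
      rw [mul_comm (16 : ℝ) (exp (-(q ^ 41213))), mul_assoc]
    rw [h4]
    exact h3
  · -- 12
    have h1 : exp (2 * q ^ 41213) ≤ (⌈exp (2 * q ^ 41213)⌉₊ : ℝ) := Nat.le_ceil _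
    have h2 : exp (-(q ^ 41213)) ^ 2 * exp (2 * q ^ 41213) = 1 := by
      rw [← Real.exp_nat_mul, ← Real.exp_add]
      have h3 : ((2 : ℕ) : ℝ) * -(q ^ 41213) + 2 * q ^ 41213 = 0 := by
        rw [Nat.cast_ofNat, mul_neg, neg_add_cancel]
      rw [h3, Real.exp_zero]
    have h4 : exp (-(q ^ 41213)) ^ 2 * exp (2 * q ^ 41213) ≤
        exp (-(q ^ 41213)) ^ 2 * (⌈exp (2 * q ^ 41213)⌉₊ : ℝ) :=
      mul_le_mul_of_nonneg_left h1 (pow_nonneg (exp_pos _).le _)
    rw [h2] at h4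
    rw [mul_assoc]
    linarith
  · -- 13
    intro k hk
    rw [← hq] at hk
    have hk1 : (1 : ℝ) ≤ k := (Real.one_le_exp (hpow 50000).le).trans hk
    have hk0 : (0 : ℝ) < k := by linarith
    have hl : q ^ 50000 ≤ log k := (Real.le_log_iff_exp_le hk0).mpr hk
    have h1 : log (1 / exp (-(q ^ 41213))) = q ^ 41213 := by
      rw [one_div, ← Real.exp_neg, Real.log_exp, neg_neg]
    have h2 : log (1 / exp (-(q ^ 41212))) = q ^ 41212 := by
      rw [one_div, ← Real.exp_neg, Real.log_exp, neg_neg]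
    rw [h1, h2, hs1']
    apply a3 q (log k) ((q ^ 2575) ^ 2) (q ^ 41212) (q ^ 41213) k
      (⌈exp (2 * q ^ 41213)⌉₊ : ℝ) hk1 rfl hq1
    · exact (hmono _ _ (by norm_num)).trans hl
    · rw [← pow_mul]
      exact (hmono _ _ (by norm_num)).trans hl
    · exact pow_nonneg (hpow _).le _
    · exact (hmono _ _ (by norm_num)).trans hl
    · exact (hpow _).le
    · have h3 := hqq 41213
      have h4 : q ^ (41213 + 1) ≤ q ^ 50000 := hmono _ _ (by norm_num)
      have h5 := hpow 41213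
      linarith
    · exact (Nat.ceil_lt_add_one (exp_pos _).le).le
    · exact hS1
    · exact hS

end Pool.Agent.EGF.H24
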