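import Pool.Agent.EGF.StmtsP

/-!
# Squad EGF, row PAR2: the parameters
-/

set_option autoImplicit false

open Real

namespace Pool.Agent.EGF.H24

theorem par2 : Par2Stmt := by
  intro Q s s1 hQ hs hs1
  obtain ⟨q, hq⟩ : ∃ q : ℝ, q = (Q : ℝ) := ⟨_, rfl⟩
  have hq1 : (1024 : ℝ) ≤ q := by rw [hq]; exact_mod_cast hQ
  have hq0 : 0 < q := by linarith
  have hqo : 1 ≤ q := by linarith
  have hmono : ∀ a b : ℕ, a ≤ b → q ^ a ≤ q ^ b := fun a b h => pow_le_pow_right₀ hqo h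
  have hqq : ∀ a : ℕ, q ^ a * 1024 ≤ q ^ (a + 1) := fun a => by
    rw [pow_succ]
    exact mul_le_mul_of_nonneg_left hq1 (pow_nonneg hq0.le _)
  have hsr : (s : ℝ) = 32 * q ^ 2 + 1 := by rw [hs, hq]; push_cast; ring
  have hS : (s : ℝ) ≤ q ^ 3 := by
    have h2 := hqq 2
    have h3 : 1 ≤ q ^ 2 := one_le_pow₀ hqo
    have h4 : q ^ (2 + 1) = q ^ 3 := by norm_num
    rw [h4] at h2
    rw [hsr]
    linarith
  have hS1 : (1 : ℝ) ≤ s := by
    have h3 : 1 ≤ q ^ 2 := one_le_pow₀ hqo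
    rw [hsr]
    linarith
  have hS0 : (0 : ℝ) < s := by linarith
  have hs1' : (s1 : ℝ) = q ^ 1546 := by rw [hs1, hq]; exact Nat.cast_pow Q 1546
  have hpow : ∀ n : ℕ, 0 < q ^ n := fun n => pow_pos hq0 n
  -- the lower bound of `(1 / s ^ 2) ^ 257`
  have hlow : 1 / q ^ 1542 ≤ (1 / (s : ℝ) ^ 2) ^ 257 := by
    have h1 : 1 / (q ^ 3) ^ 2 ≤ 1 / (s : ℝ) ^ 2 :=
      one_div_le_one_div_of_le (by positivity) (pow_le_pow_left₀ hS0.le hS 2)
    have h2 : (1 / (q ^ 3) ^ 2) ^ 257 ≤ (1 / (s : ℝ) ^ 2) ^ 257 :=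
      pow_le_pow_left₀ (by positivity) h1 257
    have h3 : (1 / (q ^ 3) ^ 2) ^ 257 = 1 / q ^ 1542 := by
      rw [← pow_mul, one_div_pow, ← pow_mul]
    rw [h3] at h2
    exact h2
  obtain ⟨j, hj⟩ : ∃ j : ℕ, j = Q ^ 3093 := ⟨_, rfl⟩
  obtain ⟨m, hm⟩ : ∃ m : ℕ, m = Q ^ 24745 := ⟨_, rfl⟩
  have hjr : (j : ℝ) = q ^ 3093 := by rw [hj, hq]; exact Nat.cast_pow Q 3093
  have hmr : (m : ℝ) = q ^ 24745 := by rw [hm, hq]; exact Nat.cast_pow Q 24745
  refine ⟨j, m, 1 / q ^ 1543, 1 / q ^ 7729, ?_, ?_, ?_, ?_, ?_, ?_, ?_, ?_, ?_, ?_, ?_⟩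
  · -- 1
    rw [hs1', ← hq]
    have h1 : 1 / q ^ 1543 * q ^ 1546 = q ^ 3 := by
      have h2 : q ^ 1546 = q ^ 1543 * q ^ 3 := by rw [← pow_add]
      rw [h2, one_div, inv_mul_cancel_left₀ (hpow 1543).ne']
    rw [h1]
    have h3 := hqq 2
    have h4 : q ^ (2 + 1) = q ^ 3 := by norm_num
    rw [h4] at h3
    have h5 := hpow 2
    linarith
  · exact one_div_pos.mpr (hpow _)
  · -- 3
    have h1 : (200 : ℝ) ≤ q ^ 1543 := by
      calc (200 : ℝ) ≤ q ^ 1 := by rw [pow_one]; linarith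
        _ ≤ q ^ 1543 := hmono _ _ (by norm_num)
    exact one_div_le_one_div_of_le (by norm_num) h1
  · -- 4
    have h1 : 1 / q ^ 1543 ≤ 1 / q ^ 1542 / 8 := by
      rw [div_div]
      apply one_div_le_one_div_of_le
      · have := hpow 1542; linarith
      · have h2 := hqq 1542
        have h3 : q ^ (1542 + 1) = q ^ 1543 := by norm_num
        rw [h3] at h2
        have h4 := hpow 1542
        linarith
    have h5 : 1 / q ^ 1542 / 8 ≤ (1 / (s : ℝ) ^ 2) ^ 257 / 8 :=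
      div_le_div_of_nonneg_right hlow (by norm_num)
    exact h1.trans h5
  · -- 5
    have h1 : 2 * (1 / q ^ 1543) ≤ (2 / q) ^ 2 := by
      have h2 : 1 / q ^ 1543 ≤ 1 / q ^ 2 :=
        one_div_le_one_div_of_le (hpow 2) (hmono _ _ (by norm_num))
      have h3 : (2 / q) ^ 2 = 4 * (1 / q ^ 2) := by
        rw [div_pow, mul_one_div]
        norm_num
      rw [h3]
      have h4 : 0 < 1 / q ^ 2 := one_div_pos.mpr (hpow 2)
      linarith
    have h5 : √(2 * (1 / q ^ 1543)) ≤ 2 / q :=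
      (Real.sqrt_le_left (div_nonneg (by norm_num) hq0.le)).mpr h1
    rw [← hq]
    have h6 : 256 / q = 128 * (2 / q) := by ring
    rw [h6]
    have h7 : 0 < 2 / q := div_pos (by norm_num) hq0
    linarith
  · -- 6
    have h1 : s1 ^ 2 = Q ^ 3092 := by rw [hs1, ← pow_mul]
    rw [h1, hj]
    have h2 : Q ^ 3093 = Q ^ 3092 * Q := pow_succ Q 3092
    rw [h2, mul_comm]
    exact Nat.mul_le_mul_left _ (by omega)
  · exact one_div_pos.mpr (hpow _)
  · -- 8
    have h1 : 16 * (1 / q ^ 7729) = 1 / (q ^ 7729 / 16) := by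
      rw [one_div_div, mul_one_div]
    rw [h1]
    apply one_div_le_one_div_of_le (hpow _)
    have h2 := hqq 1543
    have h3 : q ^ (1543 + 1) ≤ q ^ 7729 := hmono _ _ (by norm_num)
    have h4 := hpow 1543
    rw [le_div_iff₀ (by norm_num)]
    linarith
  · -- 9
    have h1 : 1 / q ^ 7729 ≤ 1 / q ^ 1542 / (2 * (j : ℝ) ^ 2) := by
      rw [div_div, hjr]
      have h4 : (q ^ 3093) ^ 2 = q ^ 6186 := by rw [← pow_mul]
      rw [h4]
      have h5 : q ^ 1542 * (2 * q ^ 6186) = 2 * q ^ 7728 := by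
        have h6 : q ^ 7728 = q ^ 1542 * q ^ 6186 := by rw [← pow_add]
        rw [h6, mul_left_comm]
      rw [h5]
      apply one_div_le_one_div_of_le
      · have := hpow 7728; linarith
      · have h7 := hqq 7728
        have h8 := hpow 7728
        have h9 : q ^ (7728 + 1) = q ^ 7729 := by norm_num
        rw [h9] at h7
        linarith
    refine h1.trans ?_
    apply div_le_div_of_nonneg_right hlow
    rw [hjr]
    exact mul_nonneg (by norm_num) (pow_nonneg (hpow _).le _)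
  · -- 10
    have h1 : (7 * j ^ 8 : ℕ) = 7 * Q ^ 24744 := by rw [hj, ← pow_mul]
    rw [h1, hm]
    have h2 : Q ^ 24745 = Q ^ 24744 * Q := pow_succ Q 24744
    rw [h2, mul_comm]
    have h3 : 0 < Q ^ 24744 := pow_pos (by omega) _
    exact Nat.mul_lt_mul_of_pos_left (by omega) h3
  · -- 11
    intro k hk hlk
    rw [← hq] at hlk
    have hk1 : (1 : ℝ) ≤ k := by exact_mod_cast hk
    have hk0 : (0 : ℝ) < k := by linarith
    obtain ⟨X, hX⟩ : ∃ X : ℝ, X = q ^ 64948 := ⟨_, rfl⟩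
    have h1 : log ((k : ℝ) + 1) ≤ q := (log_le_log (by linarith) (by linarith)).trans hlk
    have h2 : log (k : ℝ) ≤ q := (log_le_log hk0 (by linarith)).trans hlk
    have h1' : 0 ≤ log ((k : ℝ) + 1) := log_nonneg (by linarith)
    have h3 : (s1 : ℝ) ^ 2 * log ((k : ℝ) + 1) ≤ q ^ 3093 := by
      rw [hs1', ← pow_mul]
      have h4 : q ^ 3093 = q ^ 3092 * q := pow_succ q 3092
      rw [h4]
      exact mul_le_mul_of_nonneg_left h1 (hpow 3092).le
    have h4 : (m : ℝ) ^ 2 / (1 / q ^ 7729) ^ 2 = X := by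
      rw [hmr, one_div_pow, div_div_eq_mul_div, div_one, ← pow_mul, ← pow_mul, ← pow_add, hX]
    have h4' : 7 * (m : ℝ) ^ 2 / (1 / q ^ 7729) ^ 2 = 7 * X := by
      rw [mul_div_assoc, h4]
    have h5 : log (s : ℝ) ≤ 3 * q := by
      have h6 : log (s : ℝ) ≤ log (q ^ 3) := log_le_log (by linarith) hS
      rw [log_pow] at h6
      have h7 : log q ≤ q := by
        have := Real.log_le_sub_one_of_pos hq0
        linarith
      have h8 : ((3 : ℕ) : ℝ) = 3 := by norm_num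
      rw [h8] at h6
      linarith
    have h6 : q ^ 3093 * 1024 ≤ X := by
      rw [hX]
      exact (hqq 3093).trans (hmono _ _ (by norm_num))
    have h7 : q ≤ q ^ 3093 := by
      calc q = q ^ 1 := (pow_one q).symm
        _ ≤ q ^ 3093 := hmono _ _ (by norm_num)
    have h8 : X * 1024 ≤ (Q : ℝ) ^ 64949 := by
      rw [← hq, hX]
      have h9 := hqq 64948
      have h10 : q ^ (64948 + 1) = q ^ 64949 := by norm_num
      rwa [h10] at h9
    rw [h4']
    refine le_trans ?_ h8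
    linarith

end Pool.Agent.EGF.H24
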