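import Pool.Agent.EGF.StmtsQ
import Pool.Agent.Helper26_EGF.REG2

/-!
Row REJ of the squad EGF, block Q: joint local regularity for two sets of colours.
-/

set_option autoImplicit false

open Finset

namespace Pool.Agent.EGF.H24

open Pool.Agent.EGF Pool.Agent.EGF.H26

variable {V : Type} [DecidableEq V] {k : ℕ}

/-- the weighted number of exceptional pairs -/
noncomputable def exw (c : V → V → Fin k) (C0 C1 : Finset (Fin k)) (κ0 κ1 : ℝ) (X Y : Finset V) :
    ℝ :=
  ((ex c C0 X Y).card : ℝ) / κ0 + ((ex c C1 X Y).card : ℝ) / κ1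

theorem exw_nonneg (c : V → V → Fin k) (C0 C1 : Finset (Fin k)) {κ0 κ1 : ℝ} (h0 : 0 < κ0)
    (h1 : 0 < κ1) (X Y : Finset V) : 0 ≤ exw c C0 C1 κ0 κ1 X Y := by
  unfold exw
  positivity

theorem exw_left (c : V → V → Fin k) (C0 C1 : Finset (Fin k)) (κ0 κ1 : ℝ) {A X : Finset V}
    (h : X ⊆ A) (B : Finset V) : exw c C0 C1 κ0 κ1 A B =
      exw c C0 C1 κ0 κ1 X B + exw c C0 C1 κ0 κ1 (A \ X) B := by
  unfold exw
  rw [ex_left c C0 h B, ex_left c C1 h B]
  push_cast
  ring

theorem exw_right (c : V → V → Fin k) (C0 C1 : Finset (Fin k)) (κ0 κ1 : ℝ) (A : Finset V)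
    {B Y : Finset V} (h : Y ⊆ B) : exw c C0 C1 κ0 κ1 A B =
      exw c C0 C1 κ0 κ1 A Y + exw c C0 C1 κ0 κ1 A (B \ Y) := by
  unfold exw
  rw [ex_right c C0 A h, ex_right c C1 A h]
  push_cast
  ring

theorem rej : RejStmt := by
  intro V _ k c C0 C1 A B κ0 κ1 ρ hA hB hκ0 hκ1 hρ hd0 hd1
  have ha0 : (0 : ℝ) < A.card := by exact_mod_cast hA.card_pos
  have hb0 : (0 : ℝ) < B.card := by exact_mod_cast hB.card_pos
  set μ : ℝ := ρ ^ 2 / 3 with hμ
  have hμ0 : 0 < μ := by positivity
  let F : Finset (Finset V × Finset V) :=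
    (A.powerset ×ˢ B.powerset).filter fun p => p.1.Nonempty ∧ p.2.Nonempty
  let Φ : Finset V × Finset V → ℝ := fun p =>
    exw c C0 C1 κ0 κ1 p.1 p.2 / (p.1.card * p.2.card) +
      μ * (Real.log A.card + Real.log B.card - Real.log p.1.card - Real.log p.2.card)
  have hF : (A, B) ∈ F := by
    simp only [F, mem_filter, mem_product, mem_powerset]
    exact ⟨⟨Subset.refl _, Subset.refl _⟩, hA, hB⟩
  obtain ⟨⟨A1, B1⟩, h1, hmin⟩ := Finset.exists_min_image F Φ ⟨_, hF⟩
  simp only [F, mem_filter, mem_product, mem_powerset] at h1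
  obtain ⟨⟨hA1, hB1⟩, hA1n, hB1n⟩ := h1
  have ha1 : (0 : ℝ) < A1.card := by exact_mod_cast hA1n.card_pos
  have hb1 : (0 : ℝ) < B1.card := by exact_mod_cast hB1n.card_pos
  have hla : Real.log A1.card ≤ Real.log A.card :=
    Real.log_le_log ha1 (by exact_mod_cast card_le_card hA1)
  have hlb : Real.log B1.card ≤ Real.log B.card :=
    Real.log_le_log hb1 (by exact_mod_cast card_le_card hB1)
  -- the density of the whole pair
  have hd : exw c C0 C1 κ0 κ1 A B ≤ 2 * (A.card * B.card) := by
    unfold exw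
    have h2 : ((ex c C0 A B).card : ℝ) / κ0 ≤ A.card * B.card := by
      rw [div_le_iff₀ hκ0]
      linarith
    have h3 : ((ex c C1 A B).card : ℝ) / κ1 ≤ A.card * B.card := by
      rw [div_le_iff₀ hκ1]
      linarith
    linarith
  -- the value of `Φ` at the minimum
  have hΦ : exw c C0 C1 κ0 κ1 A1 B1 / (A1.card * B1.card) +
      μ * (Real.log A.card + Real.log B.card - Real.log A1.card - Real.log B1.card) ≤ 2 := by
    have h2 : Φ (A1, B1) ≤ Φ (A, B) := hmin _ hF
    have h3 : Φ (A, B) ≤ 2 := by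
      simp only [Φ]
      have h4 : exw c C0 C1 κ0 κ1 A B / (A.card * B.card) ≤ 2 := by
        rw [div_le_iff₀ (by positivity)]
        exact hd
      have h5 : Real.log A.card + Real.log B.card - Real.log A.card - Real.log B.card = 0 := by
        ring
      rw [h5, mul_zero, add_zero]
      exact h4
    exact h2.trans h3
  have hP : (0 : ℝ) < (A1.card : ℝ) * B1.card := by positivity
  have he1 : exw c C0 C1 κ0 κ1 A1 B1 ≤ 2 * (A1.card * B1.card) := by
    rw [← div_le_iff₀ hP]
    have : 0 ≤ μ * (Real.log A.card + Real.log B.card - Real.log A1.card - Real.log B1.card) :=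
      mul_nonneg hμ0.le (by linarith)
    linarith
  have hlog : Real.log A.card + Real.log B.card - Real.log A1.card - Real.log B1.card ≤
      6 / ρ ^ 2 := by
    have h2 : μ * (Real.log A.card + Real.log B.card - Real.log A1.card - Real.log B1.card) ≤ 2 := by
      have : (0 : ℝ) ≤ exw c C0 C1 κ0 κ1 A1 B1 / (A1.card * B1.card) :=
        div_nonneg (exw_nonneg c C0 C1 hκ0 hκ1 _ _) hP.le
      linarith
    have h3 : 6 / ρ ^ 2 = 2 / μ := by
      rw [hμ]
      field_simp
      norm_num
    rw [h3, le_div_iff₀ hμ0, mul_comm]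
    exact h2
  -- lower bound for the other rectangles
  have key : ∀ X ⊆ A1, ∀ Y ⊆ B1, (X.card : ℝ) * Y.card / (A1.card * B1.card) *
      exw c C0 C1 κ0 κ1 A1 B1 - μ * (A1.card * B1.card) ≤ exw c C0 C1 κ0 κ1 X Y := by
    intro X hX Y hY
    rcases X.eq_empty_or_nonempty with hXe | hXn
    · subst hXe
      have : 0 < μ * ((A1.card : ℝ) * B1.card) := by positivity
      simp only [card_empty, Nat.cast_zero, zero_mul, zero_div, zero_sub]
      have h2 := exw_nonneg c C0 C1 hκ0 hκ1 (∅ : Finset V) Y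
      linarith
    rcases Y.eq_empty_or_nonempty with hYe | hYn
    · subst hYe
      have : 0 < μ * ((A1.card : ℝ) * B1.card) := by positivity
      simp only [card_empty, Nat.cast_zero, mul_zero, zero_div, zero_mul, zero_sub]
      have h2 := exw_nonneg c C0 C1 hκ0 hκ1 X (∅ : Finset V)
      linarith
    have hx : (0 : ℝ) < X.card := by exact_mod_cast hXn.card_pos
    have hy : (0 : ℝ) < Y.card := by exact_mod_cast hYn.card_pos
    have hm : Φ (A1, B1) ≤ Φ (X, Y) := by
      apply hmin
      simp only [F, mem_filter, mem_product, mem_powerset]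
      exact ⟨⟨hX.trans hA1, hY.trans hB1⟩, hXn, hYn⟩
    simp only [Φ] at hm
    have hlog2 : Real.log A1.card + Real.log B1.card - Real.log X.card - Real.log Y.card ≤
        (A1.card : ℝ) * B1.card / (X.card * Y.card) := by
      have e1 : Real.log ((A1.card : ℝ) * B1.card / (X.card * Y.card)) =
          Real.log A1.card + Real.log B1.card - Real.log X.card - Real.log Y.card := by
        rw [Real.log_div (by positivity) (by positivity), Real.log_mul ha1.ne' hb1.ne',
          Real.log_mul hx.ne' hy.ne']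
        ring
      rw [← e1]
      have := Real.log_le_sub_one_of_pos
        (show 0 < (A1.card : ℝ) * B1.card / (X.card * Y.card) by positivity)
      linarith
    have h3 : exw c C0 C1 κ0 κ1 A1 B1 / (A1.card * B1.card) -
        μ * ((A1.card : ℝ) * B1.card / (X.card * Y.card)) ≤
        exw c C0 C1 κ0 κ1 X Y / (X.card * Y.card) := by
      have h4 := mul_le_mul_of_nonneg_left hlog2 hμ0.le
      nlinarith
    have hxy : (0 : ℝ) < (X.card : ℝ) * Y.card := by positivity
    rw [le_div_iff₀ hxy] at h3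
    have h5 : (exw c C0 C1 κ0 κ1 A1 B1 / (A1.card * B1.card) -
        μ * ((A1.card : ℝ) * B1.card / (X.card * Y.card))) * (X.card * Y.card) =
        (X.card : ℝ) * Y.card / (A1.card * B1.card) * exw c C0 C1 κ0 κ1 A1 B1 -
          μ * (A1.card * B1.card) := by
      field_simp
    rw [h5] at h3
    exact h3
  -- the bound for all large rectangles
  have main : ∀ A' ⊆ A1, ∀ B' ⊆ B1, ρ * A1.card ≤ (A'.card : ℝ) → ρ * B1.card ≤ (B'.card : ℝ) →
      exw c C0 C1 κ0 κ1 A' B' ≤ 3 * (A'.card * B'.card) := by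
    intro A' hA' B' hB' hρA hρB
    have h1 := key A' hA' (B1 \ B') sdiff_subset
    have h2 := key (A1 \ A') sdiff_subset B1 (Subset.refl _)
    have e1' := exw_left c C0 C1 κ0 κ1 hA' B1
    have e2' := exw_right c C0 C1 κ0 κ1 A' hB'
    have c1 : ((A1 \ A').card : ℝ) = A1.card - A'.card := by
      rw [card_sdiff_of_subset hA', Nat.cast_sub (card_le_card hA')]
    have c2 : ((B1 \ B').card : ℝ) = B1.card - B'.card := by
      rw [card_sdiff_of_subset hB', Nat.cast_sub (card_le_card hB')]
    rw [c2] at h1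
    rw [c1] at h2
    set P : ℝ := (A1.card : ℝ) * B1.card with hPd
    set E : ℝ := exw c C0 C1 κ0 κ1 A1 B1 with hE
    have h3 : exw c C0 C1 κ0 κ1 A' B' ≤ (A'.card : ℝ) * B'.card / P * E + 2 * μ * P := by
      have h4 : (A'.card : ℝ) * (B1.card - B'.card) / P * E +
          ((A1.card : ℝ) - A'.card) * B1.card / P * E
          = E - (A'.card : ℝ) * B'.card / P * E := by
        rw [hPd]
        field_simp
        ring
      linarith
    have hw : ρ ^ 2 * P ≤ (A'.card : ℝ) * B'.card := by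
      have := mul_le_mul hρA hρB (by positivity) (Nat.cast_nonneg _)
      calc ρ ^ 2 * P = (ρ * A1.card) * (ρ * B1.card) := by rw [hPd]; ring
        _ ≤ _ := this
    have h5 : (A'.card : ℝ) * B'.card / P * E ≤ 2 * (A'.card * B'.card) := by
      rw [div_mul_eq_mul_div, div_le_iff₀ hP]
      have : (A'.card : ℝ) * B'.card * E ≤ (A'.card : ℝ) * B'.card * (2 * P) :=
        mul_le_mul_of_nonneg_left he1 (by positivity)
      calc (A'.card : ℝ) * B'.card * E ≤ (A'.card : ℝ) * B'.card * (2 * P) := this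
        _ = 2 * (A'.card * B'.card) * P := by ring
    have h6 : 2 * μ * P ≤ (A'.card : ℝ) * B'.card := by
      have h7 : 2 * μ * P = 2 / 3 * (ρ ^ 2 * P) := by rw [hμ]; ring
      have h9 : 0 ≤ ρ ^ 2 * P := by positivity
      rw [h7]
      linarith
    linarith
  refine ⟨A1, hA1, B1, hB1, hA1n, hB1n, by linarith, by linarith, ?_, ?_⟩
  · intro A' hA' B' hB' hρA hρB
    have h := main A' hA' B' hB' hρA hρB
    have h2 : ((ex c C0 A' B').card : ℝ) / κ0 ≤ 3 * (A'.card * B'.card) := by
      have h3 : (0 : ℝ) ≤ ((ex c C1 A' B').card : ℝ) / κ1 := by positivity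
      unfold exw at h
      linarith
    rw [div_le_iff₀ hκ0] at h2
    calc ((ex c C0 A' B').card : ℝ) ≤ _ := h2
      _ = 3 * κ0 * (A'.card * B'.card) := by ring
  · intro A' hA' B' hB' hρA hρB
    have h := main A' hA' B' hB' hρA hρB
    have h2 : ((ex c C1 A' B').card : ℝ) / κ1 ≤ 3 * (A'.card * B'.card) := by
      have h3 : (0 : ℝ) ≤ ((ex c C0 A' B').card : ℝ) / κ0 := by positivity
      unfold exw at h
      linarith
    rw [div_le_iff₀ hκ1] at h2
    calc ((ex c C1 A' B').card : ℝ) ≤ _ := h2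
      _ = 3 * κ1 * (A'.card * B'.card) := by ring

end Pool.Agent.EGF.H24
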