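import Pool.Agent.EGF.StmtsU

/-!
# Row TPM of the squad EGF: the main inequality
-/

set_option autoImplicit false

open Finset

namespace Pool.Agent.EGF.H24

/-- row TPM -/
theorem tpm (hTpl : TplStmt) (hTpq : TpqStmt) (hBon : BonStmt) : TpmStmt := by
  intro X Y _ _ I τ B P B1 N G u e1 e2 K l l' T r hG hτ hu0 hu2 he1 he2 hU hS hr h1 h2
  have hT : (0 : ℝ) < T := by exact_mod_cast hS.pos
  have hr' : (1 : ℝ) ≤ r := by exact_mod_cast hr
  obtain ⟨q, hq⟩ : ∃ q : X → Y → ℝ, ∀ i b, (∑ y ∈ N b, G i y) / T = q i b := ⟨_, fun _ _ => rfl⟩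
  have hTl := hTpl X Y I τ B P B1 N G u e1 e2 K T r hG hτ he1 hU hS
  have hTq := hTpq X Y I τ B P B1 N G u e1 e2 K T hG hτ hu0 hu2 he1 he2 hU hS
  -- `q` is between `0` and `1`
  have hq01 : ∀ b ∈ P, ∀ i, 0 ≤ q i b ∧ q i b ≤ 1 := by
    intro b hb i
    rw [← hq]
    have g0 : ∀ y, 0 ≤ G i y := fun y => by rcases hG i y with h | h <;> rw [h] <;> norm_num
    have g1 : ∀ y, G i y ≤ 1 := fun y => by rcases hG i y with h | h <;> rw [h] <;> norm_num
    refine ⟨div_nonneg (Finset.sum_nonneg fun y _ => g0 y) hT.le, ?_⟩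
    rw [div_le_one hT]
    calc ∑ y ∈ N b, G i y ≤ ∑ y ∈ N b, (1 : ℝ) := Finset.sum_le_sum fun y _ => g1 y
      _ = T := by rw [Finset.sum_const, hS.cN b hb, nsmul_eq_mul, mul_one]
  simp only [hq] at hTl hTq h2 ⊢
  -- the first part
  have s1 : ∑ b ∈ P, ∑ i ∈ I, τ i * G i b
      ≤ ∑ b ∈ P, ∑ i ∈ I, τ i * G i b * (1 - q i b) ^ r
        + r * ∑ b ∈ P, ∑ i ∈ I, τ i * G i b * q i b := by
    rw [Finset.mul_sum, ← Finset.sum_add_distrib]
    refine Finset.sum_le_sum fun b hb => ?_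
    rw [Finset.mul_sum, ← Finset.sum_add_distrib]
    refine Finset.sum_le_sum fun i hi => ?_
    have g0 : 0 ≤ τ i * G i b := by
      refine mul_nonneg (hτ.1 i hi) ?_
      rcases hG i b with h | h <;> rw [h] <;> norm_num
    have hb1 := (hBon (q i b) r (hq01 b hb i).1 (hq01 b hb i).2).1
    nlinarith [mul_le_mul_of_nonneg_left hb1 g0]
  -- the second part
  have s2 : ∑ b ∈ P, ∑ i ∈ I, τ i * (1 - q i b) ^ r
      ≤ ∑ b ∈ P, (1 - r * ∑ i ∈ I, τ i * q i b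
        + (r : ℝ) * (r - 1) / 2 * (u ^ 2 + 3 * (e1 / T + e2))) := by
    refine Finset.sum_le_sum fun b hb => ?_
    have e1' : ∑ i ∈ I, τ i * (1 - q i b) ^ r
        ≤ ∑ i ∈ I, (τ i - r * (τ i * q i b) + (r : ℝ) * (r - 1) / 2 * (τ i * q i b ^ 2)) := by
      refine Finset.sum_le_sum fun i hi => ?_
      have hb1 := (hBon (q i b) r (hq01 b hb i).1 (hq01 b hb i).2).2
      have := mul_le_mul_of_nonneg_left hb1 (hτ.1 i hi)
      nlinarith
    refine e1'.trans ?_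
    rw [Finset.sum_add_distrib, Finset.sum_sub_distrib, ← Finset.mul_sum, ← Finset.mul_sum, hτ.2]
    have hc : 0 ≤ (r : ℝ) * (r - 1) / 2 := by nlinarith
    have := mul_le_mul_of_nonneg_left (hTq b hb) hc
    linarith
  have s3 : ∑ b ∈ P, (1 - r * ∑ i ∈ I, τ i * q i b
        + (r : ℝ) * (r - 1) / 2 * (u ^ 2 + 3 * (e1 / T + e2)))
      = T - r * (∑ b ∈ P, ∑ i ∈ I, τ i * q i b)
        + (r : ℝ) * (r - 1) / 2 * (T * (u ^ 2 + 3 * (e1 / T + e2))) := by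
    rw [Finset.sum_add_distrib, Finset.sum_sub_distrib, ← Finset.mul_sum, Finset.sum_const,
      Finset.sum_const, hS.cP, nsmul_eq_mul, nsmul_eq_mul]
    ring
  rw [s3] at s2
  have s4 : T - r * (∑ b ∈ P, ∑ i ∈ I, τ i * q i b)
        + (r : ℝ) * (r - 1) / 2 * (T * (u ^ 2 + 3 * (e1 / T + e2)))
      ≤ T - r * (l' * T) + (r : ℝ) * (r - 1) / 2 * (T * (u ^ 2 + 3 * (e1 / T + e2))) := by
    have := mul_le_mul_of_nonneg_left h2 (by linarith : (0 : ℝ) ≤ r)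
    linarith
  have s5 := mul_le_mul_of_nonneg_left (s2.trans s4) hu0
  linarith

end Pool.Agent.EGF.H24
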